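import Pool.Agent.Helper43.LM.Sound
import Pool.Agent.Helper43.LS.InvKa

/-!
# Project LM: assembly
-/

set_option autoImplicit false

namespace Pool.LM

open Pool.LS Pool.LB

theorem rows_soundP (C D : ℕ → ℕ → ℕ → ℕ → ℕ → ℕ) (ex : Bool)
    (h : ∀ e5 < 38, chkRowP C D ex (67) e5 = true) :
    ∀ e, Red 2 2 e → InOm e → AllP (labK C) (moOf C) (labK D) (moOf D) (ex = true) e := by
  intro e hr ho
  apply chkP_sound
  obtain ⟨e1, e2, e3, e4, e5⟩ := e
  obtain ⟨r1, r2, r3⟩ := hr
  obtain ⟨o1, o2, o3, o4, o5⟩ := ho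
  simp only at r1 r2 r3 o1 o2 o3 o4 o5 ⊢
  have b5 : e5 < 38 := by omega
  have b1 : e1 < 67 := by omega
  have hrow := h e5 b5
  unfold chkRowP at hrow
  rw [allN_true] at hrow
  have hrow := hrow e1 b1
  rw [bif_true] at hrow
  have hpair : pairB e1 e5 = true := by
    unfold pairB
    rw [Bool.and_eq_true, Bool.and_eq_true, Bool.not_eq_true', ← Bool.not_eq_true,
      Bool.and_eq_true, blt_true, blt_true, ble_true, ble_true]
    exact ⟨⟨by omega, by omega⟩, o5⟩
  have hrow := hrow.1 hpair
  rw [allN_true] at hrow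
  have hrow := hrow e2 (by
    rcases Nat.lt_or_ge 1 e5 with k | k
    · rw [ble_false.mpr k]; change e2 < 10; omega
    · rw [ble_true.mpr k]; change e2 < 17; omega)
  rw [allN_true] at hrow
  have hrow := hrow e3 (by
    rcases Nat.lt_or_ge 1 e1 with k | k
    · rw [ble_false.mpr k]; change e3 < 6; omega
    · rw [ble_true.mpr k]; change e3 < 15; omega)
  rw [bif_true] at hrow
  have hom : omB e1 e2 e3 e5 = true := by
    unfold omB
    rw [Bool.and_eq_true, blt_true, blt_true]
    exact ⟨by omega, by omega⟩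
  have hrow := hrow.1 hom
  rw [Bool.and_eq_true] at hrow
  have h4 : e4 = 0 ∨ e4 = 1 := by omega
  rcases h4 with k | k
  · rw [k]; exact hrow.1
  · rw [k]; exact hrow.2

/-- the states -/
theorem inv_cod (T T' W V : List ℕ) :
    Inv (fun e => (labK (cod T W V) e, moOf (cod T W V) e, labK (cod T' W V) e,
      moOf (cod T' W V) e)) := by
  have h := inv_ka (fun r : Mon => (decN (look T W V r.e1 r.e2 r.e3 r.e4 r.e5 / 8),
    look T W V r.e1 r.e2 r.e3 r.e4 r.e5 % 8, decN (look T' W V r.e1 r.e2 r.e3 r.e4 r.e5 / 8),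
    look T' W V r.e1 r.e2 r.e3 r.e4 r.e5 % 8))
  have he : (fun e => (labK (cod T W V) e, moOf (cod T W V) e, labK (cod T' W V) e,
      moOf (cod T' W V) e)) = fun e =>
      (fun r : Mon => (decN (look T W V r.e1 r.e2 r.e3 r.e4 r.e5 / 8),
        look T W V r.e1 r.e2 r.e3 r.e4 r.e5 % 8, decN (look T' W V r.e1 r.e2 r.e3 r.e4 r.e5 / 8),
        look T' W V r.e1 r.e2 r.e3 r.e4 r.e5 % 8)) (ka e) := by
    funext e
    show (decN (cod T W V e.e1 e.e2 e.e3 e.e4 e.e5 / 8),
      cod T W V e.e1 e.e2 e.e3 e.e4 e.e5 % 8, decN (cod T' W V e.e1 e.e2 e.e3 e.e4 e.e5 / 8),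
      cod T' W V e.e1 e.e2 e.e3 e.e4 e.e5 % 8) = _
    rw [cod_eq, cod_eq]
  rw [he]
  exact h

/-- The check of all pairs of consecutive rules (`L` lists the rules of the last degrees, `B` is
the rule of all smaller degrees). -/
def ChkAll (L : List (List ℕ)) (B W V : List ℕ) : Prop :=
  ∀ s ≤ L.length, ∀ e5 < 38, chkRowP (cod (L.getD (s + 1) B) W V) (cod (L.getD s B) W V)
    (Nat.beq s 0) 67 e5 = true

/-- `L(5,n)` is a symmetric chain order. -/
theorem sco_of_rowsM (L : List (List ℕ)) (B W V : List ℕ) (h : ChkAll L B W V) (n : ℕ) :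
    SCO 5 n := by
  have hB : ∀ s, ∀ e5 < 38, chkRowP (cod (L.getD (s + 1) B) W V) (cod (L.getD s B) W V)
      (Nat.beq s 0) 67 e5 = true := by
    intro s
    rcases Nat.lt_or_ge L.length s with hs | hs
    · have h1 := h L.length le_rfl
      rcases Nat.eq_zero_or_pos L.length with h0 | h0
      · -- no cap: the rule of degree `n` is the bulk
        intro e5 he5
        have h2 := h1 e5 he5
        rw [List.getD_eq_default _ _ (by omega), List.getD_eq_default _ _ (by omega)] at h2 ⊢
        rw [h0] at h2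
        have hz : Nat.beq s 0 = false := by
          rw [nbeq_false]; omega
        rw [hz]
        have hz0 : Nat.beq 0 0 = true := rfl
        rw [hz0] at h2
        exact chkRow_weak _ _ _ _ h2
      · intro e5 he5
        have h2 := h1 e5 he5
        rw [List.getD_eq_default _ _ (by omega), List.getD_eq_default _ _ (by omega)] at h2 ⊢
        have hz : Nat.beq s 0 = false := by
          rw [nbeq_false]; omega
        have hz' : Nat.beq L.length 0 = false := by
          rw [nbeq_false]; omega
        rw [hz]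
        rw [hz'] at h2
        exact h2
    · exact h s hs
  have hA : ∀ s e, Red 2 2 e → AllP (labK (cod (L.getD (s + 1) B) W V))
      (moOf (cod (L.getD (s + 1) B) W V)) (labK (cod (L.getD s B) W V))
      (moOf (cod (L.getD s B) W V)) (Nat.beq s 0 = true) e := by
    intro s
    exact all_of_windowP _ _ _ _ _ (inv_cod _ _ W V) (rows_soundP _ _ _ (hB s))
  exact sco_of_goodM 2 2 (by decide) (by decide) _ _
    (goodM_of_loc (fun s => labK (cod (L.getD s B) W V)) (fun s => moOf (cod (L.getD s B) W V))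
      (fun s e he => by
        have h1 := (hA s e he).1
        have h2 : (Nat.beq s 0 = true) = (s = 0) := by
          rw [nbeq_true]
        rw [h2] at h1
        exact h1)) n

end Pool.LM
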