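import Pool.Agent.Helper43.LB.Chk

/-!
# Project LM: the checker of a pair of rules
-/

set_option autoImplicit false

namespace Pool.LM

open Pool.LS Pool.LB

/-- the local check of the rule `D` after the rule `C`; `lU`, `mU` label and move of `C`,
`l`, `m` label and move of `D` -/
def chkP (C D : ℕ → ℕ → ℕ → ℕ → ℕ → ℕ) (ex : Bool) (lU mU l m e1 e2 e3 e4 e5 : ℕ) : Bool :=
  rangeNB lU e1 e2 e3 e4 e5 && rangeNB l e1 e2 e3 e4 e5 &&
  (bif Nat.beq mU 0 then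
    Nat.beq lU 62 ||
      (redB (e1 + 1) e2 e3 e4 e5 &&
        (fun k => Nat.ble 48 k && Nat.ble k 52 &&
          offB lU k e1 e2 e3 e4 e5) (D (e1 + 1) e2 e3 e4 e5 / 8))
  else true) &&
  (bif Nat.beq m 0 then
    !ex || topAB l e1 e2 e3 e4 e5 || Nat.beq l 54 || Nat.beq l 62
  else !Nat.beq l 56 && !Nat.beq l 62 && stepB D l m e1 e2 e3 e4 e5) &&
  predsB D (botAB l e1 e2 e3 e4 e5 || Nat.beq l 57 || stB C e1 e2 e3 e4 e5) e1 e2 e3 e4 e5 &&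
  botsB D l e1 e2 e3 e4 e5 &&
  zonesB lU e1 e2 e3 e4 e5 && zonesB l e1 e2 e3 e4 e5

/-- the local check -/
def chkQ (C D : ℕ → ℕ → ℕ → ℕ → ℕ → ℕ) (ex : Bool) (e1 e2 e3 e4 e5 : ℕ) : Bool :=
  chkP C D ex (C e1 e2 e3 e4 e5 / 8) (C e1 e2 e3 e4 e5 % 8)
    (D e1 e2 e3 e4 e5 / 8) (D e1 e2 e3 e4 e5 % 8) e1 e2 e3 e4 e5

/-- the check of the window for a given `e5` -/
def chkRowP (C D : ℕ → ℕ → ℕ → ℕ → ℕ → ℕ) (ex : Bool) (n e5 : ℕ) : Bool :=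
  allN n fun e1 => bif pairB e1 e5 then
    allN (bif Nat.ble e5 1 then 17 else 10) fun e2 =>
      allN (bif Nat.ble e1 1 then 15 else 6) fun e3 =>
        bif omB e1 e2 e3 e5 then chkQ C D ex e1 e2 e3 0 e5 && chkQ C D ex e1 e2 e3 1 e5 else true
    else true

end Pool.LM
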