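import Pool.Agent.Helper43.LM.Reduce
import Pool.Agent.Helper43.LB.GoodOf

/-!
# Project LM: local conditions of a pair of rules

`labU, moU` is the rule of the monomials of degree `d - 1`, `lab, mo` the rule of the monomials of
degree `d`.
-/

set_option autoImplicit false

namespace Pool.LM

open Pool.LS Pool.LB

/-- The local conditions of the rule `lab, mo` after the rule `labU, moU` at `e`; all the chains
end symmetrically if `ex`. -/
structure LocP (labU : Mon → LLab) (moU : Mon → ℕ) (lab : Mon → LLab) (mo : Mon → ℕ) (ex : Prop)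
    (e : Mon) : Prop where
  rangeU : rangeN (labU e) e
  range : rangeN (lab e) e
  step : mo e ≠ 0 → ∃ f, mvF (mo e) e = some f ∧ Red 2 2 f ∧ lab f = (lab e).next ∧ lab e ≠ .C 5
  stop : ex → mo e = 0 → isTopA (lab e) e ∨ lab e = .B 6 ∨ lab e = .C 5
  pred : ¬ (isBotA (lab e) e ∨ lab e = .C 0 ∨ IsSt labU moU e) → ∃ k, Pred mo k e
  predU : ∀ k k', Pred mo k e → Pred mo k' e → k = k'
  start : (isBotA (lab e) e ∨ lab e = .C 0 ∨ IsSt labU moU e) → ∀ k, ¬ Pred mo k e
  top : IsTp labU moU e → Red 2 2 (x1 e) ∧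
    ∃ j, j ≤ 4 ∧ OffN (labU e) e j ∧ lab (x1 e) = .B j
  bot : (isBotA (lab e) e ∨ lab e = .C 0) → e.e4 = 0 ∧ Red 2 2 (x34 e) ∧ lab (x34 e) = .C 5
  botOf : lab e = .C 5 → ∃ u, e = x34 u ∧ (isBotA (lab u) u ∨ lab u = .C 0)

theorem goodM_of_loc (lab : ℕ → Mon → LLab) (mo : ℕ → Mon → ℕ)
    (h : ∀ s e, Red 2 2 e → LocP (lab (s + 1)) (mo (s + 1)) (lab s) (mo s) (s = 0) e) :
    GoodM 2 2 (fun s => toLb (lab s)) mo where
  step := by
    intro s e he hm
    obtain ⟨f, hf, hR, hl, -⟩ := (h s e he).step hm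
    have hM := mv_of_mvF hf
    exact ⟨f, hR, hM, toLb_next (deg_mv hM) hl⟩
  endC := by
    intro s e he hl
    simp only [toC_iff] at hl
    by_contra hm
    obtain ⟨f, -, -, -, h1⟩ := (h s e he).step hm
    exact h1 hl
  exact := by
    intro e he hm
    have h1 := (h 0 e he).stop rfl hm
    rw [← or_assoc] at h1
    rcases h1 with h1 | h1
    · exact Or.inl ((tpC_iff (h 0 e he).range).2 h1)
    · exact Or.inr (toC_iff.2 h1)
  inj := by
    intro s e e' f he he' hf hm hm' hM hM'
    have hk := (h s f hf).predU _ _ (pred_of_mv he hM) (pred_of_mv he' hM')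
    have h1 := mvB_of_mv hM
    have h2 := mvB_of_mv hM'
    rw [hk, h2] at h1
    simp only [Option.some.injEq] at h1
    exact h1.symm
  start := by
    intro s f hf
    have hL := h s f hf
    rw [bt_iff hL.range, st_iff hf, or_assoc]
    constructor
    · rintro ⟨e, he, hm, hM⟩ hs
      exact hL.start hs _ (pred_of_mv he hM)
    · intro hs
      obtain ⟨k, g, hg, hR, hk⟩ := hL.pred hs
      have hM := mv_of_mvB hg
      refine ⟨g, hR, ?_, ?_⟩
      · rw [hk]
        exact mv_ne_zero hM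
      · rw [hk]
        exact hM
  top := by
    intro s t ht hT
    have hL := h s t ht
    obtain ⟨h1, j, -, h3, h4⟩ := hL.top ⟨hT.1, fun hh => hT.2 (toC_iff.2 hh)⟩
    refine ⟨h1, (j : ℤ) - 2, off_of hL.rangeU h3, ?_⟩
    show toLb (lab s) (x1 t) = _
    unfold toLb
    rw [h4]
    simp only [Lb.B.injEq]
    omega
  bot := by
    intro s u hu hB
    have hL := h s u hu
    simp only [bt_iff hL.range] at hB
    rw [toC_iff]
    exact hL.bot hB
  botOf := by
    intro s e he hl
    simp only [toC_iff] at hl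
    obtain ⟨u, hu, hb⟩ := (h s e he).botOf hl
    have hur : Red 2 2 u := redx34 (hu ▸ he)
    exact ⟨u, hu, (bt_iff (h s u hur).range).2 hb⟩

end Pool.LM
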