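import Pool.Agent.Helper43.LB.Reduce2

/-!
# Project LM (several levels of caps): reduction

A family of rules `lab s, mo s` on the reduced monomials; the monomials of degree `n - s` follow
the rule `s` (so the rule `0` is the cap).
-/

set_option autoImplicit false

namespace Pool.LM

open Pool.LS Pool.LS.Asm Pool.LB

/-- A family of rules. -/
structure GoodM (α β : ℕ) (lab : ℕ → Mon → Lb) (mo : ℕ → Mon → ℕ) : Prop where
  step : ∀ s e, Red α β e → mo s e ≠ 0 →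
    ∃ f, Red α β f ∧ Mv (mo s e) e f ∧ lab s f = (lab s e).next
  endC : ∀ s e, Red α β e → lab s e = .C 5 → mo s e = 0
  exact : ∀ e, Red α β e → mo 0 e = 0 → TpC (lab 0) e ∨ lab 0 e = .C 5
  inj : ∀ s e e' f, Red α β e → Red α β e' → Red α β f → mo s e ≠ 0 → mo s e' ≠ 0 →
    Mv (mo s e) e f → Mv (mo s e') e' f → e = e'
  start : ∀ s f, Red α β f →
    ((∃ e, Red α β e ∧ mo s e ≠ 0 ∧ Mv (mo s e) e f) ↔
      ¬ (Bt (lab s) f ∨ St α β (lab (s + 1)) (mo (s + 1)) f))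
  top : ∀ s t, Red α β t → TpB (lab (s + 1)) (mo (s + 1)) t → Red α β (x1 t) ∧
    ∃ d : ℤ, Off (lab (s + 1) t) t d ∧ lab s (x1 t) = .B (d - 4)
  bot : ∀ s u, Red α β u → Bt (lab s) u →
    u.e4 = 0 ∧ Red α β (x34 u) ∧ lab s (x34 u) = .C 5
  botOf : ∀ s e, Red α β e → lab s e = .C 5 → ∃ u, e = x34 u ∧ Bt (lab s) u

/-- `v → w` is a step of the chains. -/
def Step (α β : ℕ) (lab : ℕ → Mon → Lb) (mo : ℕ → Mon → ℕ) (n : ℕ) (v w : Mon) : Prop :=
  ∃ b i j s : ℕ, ∃ r : Mon, Red α β r ∧ v = comp α β b i j r ∧ deg v + s = n ∧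
    (StM α β (mo s) b i j r w ∨ StC α β (lab s) b i j r w ∨
      (0 < s ∧ StX α β (lab s) (mo s) b i j r w))

/-- The length of the chain through `v`. -/
def ordM (α β : ℕ) (lab : ℕ → Mon → Lb) (n : ℕ) (v : Mon) : ℤ :=
  ordL n (bOf v) (deg v) (rk v) (lab (n - deg v) (rOf α β v))

theorem ordM_comp {α β : ℕ} (hα : 0 < α) (hβ : 0 < β) (lab : ℕ → Mon → Lb) (n b i j s : ℕ)
    {r : Mon} (hr : Red α β r) (hd : deg (comp α β b i j r) + s = n) :
    ordM α β lab n (comp α β b i j r) =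
      ordL n b (deg (comp α β b i j r)) (rk (comp α β b i j r)) (lab s r) := by
  obtain ⟨h1, h2⟩ := rOf_comp (b := b) (i := i) (j := j) hα hβ hr
  unfold ordM
  rw [h1, h2, show n - deg (comp α β b i j r) = s by omega]

section
variable {α β : ℕ} {lab : ℕ → Mon → Lb} {mo : ℕ → Mon → ℕ}

theorem step_deg {n : ℕ} {v w : Mon} (h : Step α β lab mo n v w) :
    deg v ≤ n ∧ deg w ≤ n ∧ rk w = rk v + 1 := by
  obtain ⟨b, i, j, s, r, hr, hv, hd, h⟩ := h
  rcases h with h | h | ⟨hs, h⟩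
  · have := deg_stM h; rw [← hv] at this; omega
  · have := deg_stC h; rw [← hv] at this; omega
  · have := deg_stX h; rw [← hv] at this; omega

variable (h : GoodM α β lab mo)
include h

theorem step_fun {n : ℕ} {v w w' : Mon} (hs : Step α β lab mo n v w)
    (hs' : Step α β lab mo n v w') : w = w' := by
  obtain ⟨b, i, j, s, r, hr, hv, hd, hs⟩ := hs
  obtain ⟨b', i', j', s', r', hr', hv', hd', hs'⟩ := hs'
  obtain ⟨rfl, rfl, rfl, rfl⟩ := comp_inj hr hr' (hv.symm.trans hv')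
  obtain rfl : s = s' := by omega
  rcases hs with hs | hs | ⟨-, hs⟩ <;> rcases hs' with hs' | hs' | ⟨-, hs'⟩
  · exact stM_fun hs hs'
  · exact absurd (h.endC s r hr hs'.1) hs.1
  · exact absurd hs'.1.1 hs.1
  · exact absurd (h.endC s r hr hs.1) hs'.1
  · exact stC_fun hs hs'
  · exact absurd hs.1 hs'.1.2
  · exact absurd hs.1.1 hs'.1
  · exact absurd hs'.1 hs.1.2
  · rw [hs.2, hs'.2]

/-- inversion -/
theorem step_inv {n : ℕ} {v w : Mon} (hs : Step α β lab mo n v w) :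
    ∃ b i j s : ℕ, ∃ f : Mon, Red α β f ∧ w = comp α β b i j f ∧ deg w + s = n ∧
      ((∃ r, Red α β r ∧ mo s r ≠ 0 ∧ Mv (mo s r) r f ∧ v = comp α β b i j r) ∨
       (Bt (lab s) f ∧ ∃ b', b = b' + 1 ∧ v = comp α β b' i j (x34 f)) ∨
       (∃ t, Red α β t ∧ TpB (lab (s + 1)) (mo (s + 1)) t ∧ f = x1 t ∧ v = comp α β b i j t)) := by
  obtain ⟨b, i, j, s, r, hr, hv, hd, hs⟩ := hs
  rcases hs with hs | hs | ⟨h0, hs⟩
  · have h1 := deg_stM hs
    rw [← hv] at h1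
    obtain ⟨hm, f, hf, hfm, rfl⟩ := hs
    exact ⟨b, i, j, s, f, hf, rfl, by omega, Or.inl ⟨r, hr, hm, hfm, hv⟩⟩
  · have h1 := deg_stC hs
    rw [← hv] at h1
    obtain ⟨hl, u, rfl, hu, rfl⟩ := hs
    obtain ⟨u', hu', hb⟩ := h.botOf s _ hr hl
    obtain rfl := x34_inj hu'
    exact ⟨b + 1, i, j, s, u, hu, rfl, by omega, Or.inr (Or.inl ⟨hb, b, rfl, hv⟩)⟩
  · have h1 := deg_stX hs
    rw [← hv] at h1
    obtain ⟨ht, rfl⟩ := hs
    obtain ⟨s', rfl⟩ := Nat.exists_eq_succ_of_ne_zero h0.ne'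
    exact ⟨b, i, j, s', x1 r, (h.top s' r hr ht).1, rfl, by omega,
      Or.inr (Or.inr ⟨r, hr, ht, rfl, hv⟩)⟩

theorem step_inj {n : ℕ} {v v' w : Mon} (hs : Step α β lab mo n v w)
    (hs' : Step α β lab mo n v' w) : v = v' := by
  obtain ⟨b, i, j, s, f, hf, hw, hd, hs⟩ := step_inv h hs
  obtain ⟨b', i', j', s', f', hf', hw', hd', hs'⟩ := step_inv h hs'
  obtain ⟨rfl, rfl, rfl, rfl⟩ := comp_inj hf hf' (hw.symm.trans hw')
  obtain rfl : s = s' := by omega
  have kM : (∃ r, Red α β r ∧ mo s r ≠ 0 ∧ Mv (mo s r) r f) →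
      ¬ (Bt (lab s) f ∨ St α β (lab (s + 1)) (mo (s + 1)) f) := (h.start s f hf).1
  have kX : ∀ t, Red α β t → TpB (lab (s + 1)) (mo (s + 1)) t → f = x1 t →
      St α β (lab (s + 1)) (mo (s + 1)) f ∧ ¬ Bt (lab s) f := by
    intro t ht htp hft
    obtain ⟨-, d, -, h1⟩ := h.top s t ht htp
    exact ⟨⟨t, hft, ht, htp⟩, fun hb => bt_ne_B hb (hft ▸ h1)⟩
  rcases hs with ⟨r, hr, hm, hfm, hv⟩ | ⟨hb, c, hc, hv⟩ | ⟨t, ht, htp, hft, hv⟩ <;>
  rcases hs' with ⟨r', hr', hm', hfm', hv'⟩ | ⟨hb', c', hc', hv'⟩ | ⟨t', ht', htp', hft', hv'⟩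
  · rw [hv, hv', h.inj s r r' f hr hr' hf hm hm' hfm hfm']
  · exact absurd (Or.inl hb') (kM ⟨r, hr, hm, hfm⟩)
  · exact absurd (Or.inr (kX t' ht' htp' hft').1) (kM ⟨r, hr, hm, hfm⟩)
  · exact absurd (Or.inl hb) (kM ⟨r', hr', hm', hfm'⟩)
  · rw [hv, hv', show c = c' by omega]
  · exact absurd hb (kX t' ht' htp' hft').2
  · exact absurd (Or.inr (kX t ht htp hft).1) (kM ⟨r', hr', hm', hfm'⟩)
  · exact absurd hb' (kX t ht htp hft).2
  · rw [hv, hv', x1_inj (hft.symm.trans hft')]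

variable (hα : 0 < α) (hβ : 0 < β)
include hα hβ

theorem ord_step {n : ℕ} {v w : Mon} (hs : Step α β lab mo n v w) :
    ordM α β lab n w = ordM α β lab n v := by
  obtain ⟨b, i, j, s, r, hr, rfl, hd, hs⟩ := hs
  rcases hs with hs | hs | ⟨h0, hs⟩
  · have h1 := deg_stM hs
    obtain ⟨hm, f, hf, hfm, rfl⟩ := hs
    obtain ⟨f', hf', hfm', hl⟩ := h.step s r hr hm
    obtain rfl := Mv_unique hfm hfm'
    rw [ordM_comp hα hβ lab n b i j s hr hd, ordM_comp hα hβ lab n b i j s hf (by omega), h1.1,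
      h1.2, hl, ordL_next]
  · have h1 := deg_stC hs
    obtain ⟨hl, u, rfl, hu, rfl⟩ := hs
    obtain ⟨u', hu', hb⟩ := h.botOf s _ hr hl
    obtain rfl := x34_inj hu'
    rw [ordM_comp hα hβ lab n b i j s hr hd,
      ordM_comp hα hβ lab n (b + 1) i j s hu (by omega), hl,
      ordL_x34 α β n b i j u (lab s) hb]
  · have h1 := deg_stX hs
    obtain ⟨ht, rfl⟩ := hs
    obtain ⟨s', rfl⟩ := Nat.exists_eq_succ_of_ne_zero h0.ne'
    obtain ⟨hr1, d, ho, h2⟩ := h.top s' r hr ht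
    rw [ordM_comp hα hβ lab n b i j (s' + 1) hr hd, ← ordL_x1 α β n b i j r _ d ho,
      ordM_comp hα hβ lab n b i j s' hr1 (by omega), h2]

theorem top_of {n : ℕ} {v : Mon} (hn : deg v ≤ n) (hs : ¬ ∃ w, Step α β lab mo n v w) :
    2 * (rk v : ℤ) = 5 * n + ordM α β lab n v := by
  have hr := red_rOf hα hβ v
  have hv := (comp_rOf hα hβ v).symm
  set b := bOf v
  set i := iOf α v
  set j := jOf β v
  set r := rOf α β v
  obtain ⟨s, hd⟩ : ∃ s, deg v + s = n := ⟨n - deg v, by omega⟩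
  have hm : mo s r = 0 := by
    by_contra hm
    obtain ⟨f, hf, hfm, -⟩ := h.step s r hr hm
    exact hs ⟨_, b, i, j, s, r, hr, hv, hd, Or.inl ⟨hm, f, hf, hfm, rfl⟩⟩
  by_cases hC : lab s r = .C 5
  · exfalso
    obtain ⟨u, hu, hb⟩ := h.botOf s r hr hC
    have hur : Red α β u := red_of_x34 (hu ▸ hr)
    exact hs ⟨_, b, i, j, s, r, hr, hv, hd, Or.inr (Or.inl ⟨hC, u, hu, hur, rfl⟩)⟩
  rcases Nat.eq_zero_or_pos s with rfl | h0
  · rcases h.exact r hr hm with ht | hC'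
    · have ev := two_rk_comp α β b i j r
      have eo := ordM_comp hα hβ lab n b i j 0 hr (by rw [← hv]; exact hd)
      have hdn : deg v = n := hd
      rw [← hv] at ev eo
      rw [eo]
      rcases ht with ht | ⟨o, ht, hd2⟩
      · rw [ht, hdn]
        simp only [Pool.LB.ordL]
        ring
      · rw [ht]
        simp only [Pool.LB.ordL]
        rw [hd2, hdn] at ev
        rw [hdn]
        linarith
    · exact absurd hC' hC
  · exfalso
    exact hs ⟨_, b, i, j, s, r, hr, hv, hd, Or.inr (Or.inr ⟨h0, ⟨hm, hC⟩, rfl⟩)⟩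

theorem bot_of {n : ℕ} {w : Mon} (hn : deg w ≤ n)
    (hs : ¬ ∃ v, deg v ≤ n ∧ Step α β lab mo n v w) :
    2 * (rk w : ℤ) + ordM α β lab n w = 5 * n := by
  have hr := red_rOf hα hβ w
  have hw := (comp_rOf hα hβ w).symm
  set b := bOf w
  set i := iOf α w
  set j := jOf β w
  set f := rOf α β w
  obtain ⟨s, hd⟩ : ∃ s, deg w + s = n := ⟨n - deg w, by omega⟩
  -- not a beginning of a chain `B`
  have hX : ¬ St α β (lab (s + 1)) (mo (s + 1)) f := by
    rintro ⟨t, ht, htr, htp⟩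
    have h1 := deg_x1 t
    have hlt : deg (comp α β b i j t) + (s + 1) = n := by
      rw [hw, deg_comp, ht, h1.1] at hd
      rw [deg_comp]
      omega
    exact hs ⟨comp α β b i j t, by omega, b, i, j, s + 1, t, htr, rfl, hlt,
      Or.inr (Or.inr ⟨Nat.succ_pos s, htp, by rw [hw, ht]⟩)⟩
  have hbt : Bt (lab s) f := by
    by_contra hst
    obtain ⟨e, he, hme, hmv⟩ := (h.start s f hr).2 (fun hh => hh.elim hst hX)
    have h1 : deg (comp α β b i j e) = deg w := by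
      rw [hw, deg_comp, deg_comp, (Mv_deg hmv).1]
    exact hs ⟨comp α β b i j e, by omega, b, i, j, s, e, he, rfl, by omega,
      Or.inl ⟨hme, f, hr, hmv, hw⟩⟩
  have hb0 : b = 0 := by
    by_contra hb0
    obtain ⟨b', hb'⟩ := Nat.exists_eq_succ_of_ne_zero hb0
    obtain ⟨-, h34, hC⟩ := h.bot s f hr hbt
    have h1 : deg (comp α β b' i j (x34 f)) = deg w := by
      have h1 := deg_x34 f
      rw [hw, deg_comp, deg_comp, h1.1]
      omega
    exact hs ⟨comp α β b' i j (x34 f), by omega, b', i, j, s, x34 f, h34, rfl, by omega,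
      Or.inr (Or.inl ⟨hC, f, rfl, hr, by rw [hw, hb']⟩)⟩
  have ev := two_rk_comp α β b i j f
  have eo := ordM_comp hα hβ lab n b i j s hr (by rw [← hw]; exact hd)
  rw [← hw] at ev eo
  rw [eo]
  rcases hbt with hb | ⟨o, hb, hd2⟩
  · rw [hb, hb0]
    simp only [Pool.LB.ordL]
    push_cast
    ring
  · rw [hb]
    simp only [Pool.LB.ordL]
    rw [hd2, hb0] at ev
    rw [hb0]
    push_cast at ev ⊢
    linarith

end

theorem step_le {α β : ℕ} {lab : ℕ → Mon → Lb} {mo : ℕ → Mon → ℕ} {n : ℕ} {v w : Mon}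
    (h : Step α β lab mo n v w) : ofMon v ≤ ofMon w := by
  obtain ⟨b, i, j, s, r, hr, rfl, -, h⟩ := h
  rcases h with h | h | ⟨-, h⟩
  · exact stM_le h
  · exact stC_le h
  · obtain ⟨-, rfl⟩ := h
    intro k
    fin_cases k <;> simp [ofMon, comp, x1]

open Classical in
/-- The successor function. -/
noncomputable def nextF (α β : ℕ) (lab : ℕ → Mon → Lb) (mo : ℕ → Mon → ℕ) (n : ℕ)
    (x : Fin 5 → ℕ) : Option (Fin 5 → ℕ) :=
  if h : ∃ w, Step α β lab mo n (toMon x) w then some (ofMon h.choose) else none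

theorem nextF_some {α β : ℕ} {lab : ℕ → Mon → Lb} {mo : ℕ → Mon → ℕ} {n : ℕ}
    {x y : Fin 5 → ℕ} (h : nextF α β lab mo n x = some y) :
    ∃ w, Step α β lab mo n (toMon x) w ∧ y = ofMon w := by
  unfold nextF at h
  split_ifs at h with hw
  exact ⟨hw.choose, hw.choose_spec, (Option.some.inj h).symm⟩

theorem nextF_of {α β : ℕ} {lab : ℕ → Mon → Lb} {mo : ℕ → Mon → ℕ} (hg : GoodM α β lab mo)
    {n : ℕ} {x : Fin 5 → ℕ} {w : Mon} (h : Step α β lab mo n (toMon x) w) :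
    nextF α β lab mo n x = some (ofMon w) := by
  have hw : ∃ w, Step α β lab mo n (toMon x) w := ⟨w, h⟩
  unfold nextF
  rw [dif_pos hw, step_fun hg hw.choose_spec h]

/-- A good family of rules gives a symmetric chain decomposition of `L(5,n)` for all `n`. -/
theorem sco_of_goodM (α β : ℕ) (hα : 0 < α) (hβ : 0 < β) (lab : ℕ → Mon → Lb)
    (mo : ℕ → Mon → ℕ) (h : GoodM α β lab mo) (n : ℕ) : SCO 5 n := by
  refine sco_of_next 5 n (nextF α β lab mo n)
    (fun x => ordM α β lab n (toMon x)) ?_ ?_ ?_ ?_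
  · intro a b ha hab
    obtain ⟨w, hw, rfl⟩ := nextF_some hab
    have h1 := step_deg hw
    have h2 := step_le hw
    rw [of_to ha.1] at h2
    refine ⟨⟨mono_of w, (le_of w n).2 h1.2.1⟩, h2, ?_, ?_⟩
    · rw [sum_of, h1.2.2, ← sum_of, of_to ha.1]
    · show ordM α β lab n (toMon (ofMon w)) = _
      rw [to_of]
      exact ord_step h hα hβ hw
  · intro a a' b ha ha' hb hb'
    obtain ⟨w, hw, hwb⟩ := nextF_some hb
    obtain ⟨w', hw', hwb'⟩ := nextF_some hb'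
    have e : w = w' := by
      rw [← to_of w, ← to_of w', ← hwb, ← hwb']
    subst e
    have := step_inj h hw hw'
    rw [← of_to ha.1, ← of_to ha'.1, this]
  · intro a ha hn
    have hno : ¬ ∃ w, Step α β lab mo n (toMon a) w := by
      rintro ⟨w, hw⟩
      rw [nextF_of h hw] at hn
      cases hn
    have h1 := top_of h hα hβ (mem_deg ha) hno
    rw [← sum_of, of_to ha.1] at h1
    exact_mod_cast h1
  · intro b hb hno
    have h1 := bot_of h hα hβ (mem_deg hb) (n := n) (by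
      rintro ⟨v, hv, hs⟩
      refine hno ⟨ofMon v, ⟨mono_of v, (le_of v n).2 hv⟩, ?_⟩
      rw [← to_of v] at hs
      rw [nextF_of h hs, of_to hb.1])
    rw [← sum_of, of_to hb.1] at h1
    exact_mod_cast h1

end Pool.LM
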