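import Pool.Agent.Helper43.LM.Window
import Pool.Agent.Helper43.LB.Window2

/-!
# Project LM: extension of the local conditions from the window, part 2
-/

set_option autoImplicit false
set_option linter.unusedSimpArgs false

namespace Pool.LM

open Pool.LS Pool.LB

variable {labU : Mon → LLab} {moU : Mon → ℕ} {lab : Mon → LLab} {mo : Mon → ℕ} {ex : Prop}

theorem case2 (hi : Inv (fun e => (labU e, moU e, lab e, mo e))) (e0 : Mon) (h2 : 16 ≤ e0.e2)
    (hr : Red 2 2 (e0.add v2))
    (ih : ∀ f, deg f < deg (e0.add v2) → Red 2 2 f → AllP labU moU lab mo ex f) :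
    AllP labU moU lab mo ex (e0.add v2) := by
  have hr0 : Red 2 2 e0 := by simp only [Red, Mon.add, v2] at *; omega
  have h5 : e0.e5 ≤ 1 := by simp only [Red, Mon.add, v2] at *; omega
  have hst : ∀ f, Red 2 2 f → z2 f → labU (f.add v2) = labU f ∧ moU (f.add v2) = moU f ∧
      lab (f.add v2) = lab f ∧ mo (f.add v2) = mo f := by
    intro f a b
    have := hi.inv2 f a b
    simp only [Prod.mk.injEq] at this
    exact this
  have hz0 : z2 e0 := ⟨by omega, h5⟩
  obtain ⟨hL, hZ, hZC⟩ := ih e0 (by simp only [deg, Mon.add, v2]; omega) hr0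
  constructor
  · refine loc_zoneP labU moU lab mo ex v2 e0 z2 hr0 rfl (by decide) hst
      (fun l f _ a b c => lev2 l f a b c)
      ?_ ?_ (Or.inl rfl) (Or.inr (by omega)) (Or.inl rfl) (Or.inl rfl) ih
    · intro f hf
      rcases near_off hf with h | h | h | h | h | h | h | h | h | h | h | h | h <;>
      simp only [Offs] at h <;>
      simp only [Red, Mon.add, v2] <;> omega
    · intro f hf hrf
      rcases near_off hf with h | h | h | h | h | h | h | h | h | h | h | h | h <;>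
      simp only [Offs] at h <;>
      simp only [Red, z2] at * <;> omega
  · exact ⟨zok2 labU e0 h2 hz0 (hst e0 hr0 hz0).1 hZ hL.rangeU,
      zok2 lab e0 h2 hz0 (hst e0 hr0 hz0).2.2.1 hZC hL.range⟩

theorem case3 (hi : Inv (fun e => (labU e, moU e, lab e, mo e))) (e0 : Mon) (h3 : 14 ≤ e0.e3)
    (hr : Red 2 2 (e0.add v3))
    (ih : ∀ f, deg f < deg (e0.add v3) → Red 2 2 f → AllP labU moU lab mo ex f) :
    AllP labU moU lab mo ex (e0.add v3) := by
  have hr0 : Red 2 2 e0 := by simp only [Red, Mon.add, v3] at *; omega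
  have h1 : e0.e1 ≤ 1 := by simp only [Red, Mon.add, v3] at *; omega
  have hst : ∀ f, Red 2 2 f → z3 f → labU (f.add v3) = labU f ∧ moU (f.add v3) = moU f ∧
      lab (f.add v3) = lab f ∧ mo (f.add v3) = mo f := by
    intro f a b
    have := hi.inv3 f a b
    simp only [Prod.mk.injEq] at this
    exact this
  have hz0 : z3 e0 := ⟨by omega, h1⟩
  obtain ⟨hL, hZ, hZC⟩ := ih e0 (by simp only [deg, Mon.add, v3]; omega) hr0
  constructor
  · refine loc_zoneP labU moU lab mo ex v3 e0 z3 hr0 rfl (by decide) hst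
      (fun l f _ a b c => lev3 l f a b c)
      ?_ ?_ (Or.inl rfl) (Or.inl rfl) (Or.inr (by omega)) (Or.inl rfl) ih
    · intro f hf
      rcases near_off hf with h | h | h | h | h | h | h | h | h | h | h | h | h <;>
      simp only [Offs] at h <;>
      simp only [Red, Mon.add, v3] <;> omega
    · intro f hf hrf
      rcases near_off hf with h | h | h | h | h | h | h | h | h | h | h | h | h <;>
      simp only [Offs] at h <;>
      simp only [Red, z3] at * <;> omega
  · exact ⟨zok3 labU e0 h3 hz0 (hst e0 hr0 hz0).1 hZ hL.rangeU,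
      zok3 lab e0 h3 hz0 (hst e0 hr0 hz0).2.2.1 hZC hL.range⟩

theorem caseE (hi : Inv (fun e => (labU e, moU e, lab e, mo e))) (e0 : Mon)
    (h3 : (5 * e0.e5 + 5 - e0.e2) + e0.e3 + 26 ≤ 3 * e0.e1)
    (hr : Red 2 2 (e0.add vE))
    (ih : ∀ f, deg f < deg (e0.add vE) → Red 2 2 f → AllP labU moU lab mo ex f) :
    AllP labU moU lab mo ex (e0.add vE) := by
  have hr0 : Red 2 2 e0 := by simp only [Red, Mon.add, vE] at *; omega
  have hst : ∀ f, Red 2 2 f → zE f → labU (f.add vE) = labU f ∧ moU (f.add vE) = moU f ∧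
      lab (f.add vE) = lab f ∧ mo (f.add vE) = mo f := by
    intro f a b
    have := hi.invE f a b
    simp only [Prod.mk.injEq] at this
    exact this
  have hz0 : zE e0 := by simp only [zE]; omega
  obtain ⟨hL, hZ, hZC⟩ := ih e0 (by simp only [deg, Mon.add, vE]; omega) hr0
  constructor
  · refine loc_zoneP labU moU lab mo ex vE e0 zE hr0 rfl (by decide) hst
      (fun l f _ a b c => levE l f a b c)
      ?_ ?_ (Or.inr (by omega)) (Or.inl rfl) (Or.inl rfl) (Or.inl rfl) ih
    · intro f hf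
      rcases near_off hf with h | h | h | h | h | h | h | h | h | h | h | h | h <;>
      simp only [Offs] at h <;>
      simp only [Red, Mon.add, vE] <;> omega
    · intro f hf hrf
      rcases near_off hf with h | h | h | h | h | h | h | h | h | h | h | h | h <;>
      simp only [Offs] at h <;>
      simp only [Red, zE] at * <;> omega
  · exact ⟨zokE labU e0 h3 hz0 (hst e0 hr0 hz0).1 hZ,
      zokE lab e0 h3 hz0 (hst e0 hr0 hz0).2.2.1 hZC⟩

theorem caseD (hi : Inv (fun e => (labU e, moU e, lab e, mo e))) (e0 : Mon)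
    (h3 : (3 * e0.e1 + 3 - e0.e3) + e0.e2 + 15 ≤ 5 * e0.e5)
    (hr : Red 2 2 (e0.add vD))
    (ih : ∀ f, deg f < deg (e0.add vD) → Red 2 2 f → AllP labU moU lab mo ex f) :
    AllP labU moU lab mo ex (e0.add vD) := by
  have hr0 : Red 2 2 e0 := by simp only [Red, Mon.add, vD] at *; omega
  have hst : ∀ f, Red 2 2 f → zD f → labU (f.add vD) = labU f ∧ moU (f.add vD) = moU f ∧
      lab (f.add vD) = lab f ∧ mo (f.add vD) = mo f := by
    intro f a b
    have := hi.invD f a b
    simp only [Prod.mk.injEq] at this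
    exact this
  have hz0 : zD e0 := by simp only [zD]; omega
  obtain ⟨hL, hZ, hZC⟩ := ih e0 (by simp only [deg, Mon.add, vD]; omega) hr0
  constructor
  · refine loc_zoneP labU moU lab mo ex vD e0 zD hr0 rfl (by decide) hst
      (fun l f _ a b c => levD l f a b c)
      ?_ ?_ (Or.inl rfl) (Or.inl rfl) (Or.inl rfl) (Or.inr (by omega)) ih
    · intro f hf
      rcases near_off hf with h | h | h | h | h | h | h | h | h | h | h | h | h <;>
      simp only [Offs] at h <;>
      simp only [Red, Mon.add, vD] <;> omega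
    · intro f hf hrf
      rcases near_off hf with h | h | h | h | h | h | h | h | h | h | h | h | h <;>
      simp only [Offs] at h <;>
      simp only [Red, zD] at * <;> omega
  · exact ⟨zokD labU e0 h3 hz0 (hst e0 hr0 hz0).1 hZ,
      zokD lab e0 h3 hz0 (hst e0 hr0 hz0).2.2.1 hZC⟩

theorem caseS (hi : Inv (fun e => (labU e, moU e, lab e, mo e))) (e0 : Mon)
    (h1 : 5 * 4 + 1 ≤ e0.e1) (h5 : 3 * 4 + 1 ≤ e0.e5)
    (hr : Red 2 2 (e0.add vS))
    (ih : ∀ f, deg f < deg (e0.add vS) → Red 2 2 f → AllP labU moU lab mo ex f) :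
    AllP labU moU lab mo ex (e0.add vS) := by
  have hr0 : Red 2 2 e0 := by simp only [Red, Mon.add, vS] at *; omega
  have hst : ∀ f, Red 2 2 f → zS f → labU (f.add vS) = labU f ∧ moU (f.add vS) = moU f ∧
      lab (f.add vS) = lab f ∧ mo (f.add vS) = mo f := by
    intro f a b
    have := hi.invS f a b
    simp only [Prod.mk.injEq] at this
    exact this
  have hz0 : zS e0 := by simp only [zS]; omega
  obtain ⟨hL, hZ, hZC⟩ := ih e0 (by simp only [deg, Mon.add, vS]; omega) hr0
  constructor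
  · refine loc_zoneP labU moU lab mo ex vS e0 zS hr0 rfl (by decide) hst
      (fun l f _ a b c => levS l f a b c)
      ?_ ?_ (Or.inr (by omega)) (Or.inl rfl) (Or.inl rfl) (Or.inr (by omega)) ih
    · intro f hf
      rcases near_off hf with h | h | h | h | h | h | h | h | h | h | h | h | h <;>
      simp only [Offs] at h <;>
      simp only [Red, Mon.add, vS] <;> omega
    · intro f hf hrf
      rcases near_off hf with h | h | h | h | h | h | h | h | h | h | h | h | h <;>
      simp only [Offs] at h <;>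
      simp only [Red, zS] at * <;> omega
  · exact ⟨zokS labU e0 h1 h5 hr0 hz0 (hst e0 hr0 hz0).1 hZ,
      zokS lab e0 h1 h5 hr0 hz0 (hst e0 hr0 hz0).2.2.1 hZC⟩

theorem all_of_windowP (labU : Mon → LLab) (moU : Mon → ℕ) (lab : Mon → LLab) (mo : Mon → ℕ)
    (ex : Prop)
    (hi : Inv (fun e => (labU e, moU e, lab e, mo e)))
    (h : ∀ e, Red 2 2 e → InOm e → AllP labU moU lab mo ex e) :
    ∀ e, Red 2 2 e → AllP labU moU lab mo ex e := by
  have key : ∀ n : ℕ, ∀ e, deg e = n → Red 2 2 e → AllP labU moU lab mo ex e := by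
    intro n
    induction n using Nat.strong_induction_on with
    | _ n ih =>
    intro e hd hr
    have ih' : ∀ f, deg f < deg e → Red 2 2 f → AllP labU moU lab mo ex f :=
      fun f hf hrf => ih (deg f) (hd ▸ hf) f rfl hrf
    by_cases ho : InOm e
    · exact h e hr ho
    by_cases c2 : 17 ≤ e.e2
    · have he : e = (⟨e.e1, e.e2 - 1, e.e3, e.e4, e.e5⟩ : Mon).add v2 := by
        obtain ⟨a1, a2, a3, a4, a5⟩ := e
        simp only [Mon.add, v2, Mon.mk.injEq] at *; omega
      have h0 : 16 ≤ (⟨e.e1, e.e2 - 1, e.e3, e.e4, e.e5⟩ : Mon).e2 := by dsimp only; omega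
      revert h0
      generalize (⟨e.e1, e.e2 - 1, e.e3, e.e4, e.e5⟩ : Mon) = e0 at he
      intro h0
      subst he
      exact case2 hi e0 h0 hr ih'
    by_cases c3 : 15 ≤ e.e3
    · have he : e = (⟨e.e1, e.e2, e.e3 - 1, e.e4, e.e5⟩ : Mon).add v3 := by
        obtain ⟨a1, a2, a3, a4, a5⟩ := e
        simp only [Mon.add, v3, Mon.mk.injEq] at *; omega
      have h0 : 14 ≤ (⟨e.e1, e.e2, e.e3 - 1, e.e4, e.e5⟩ : Mon).e3 := by dsimp only; omega
      revert h0
      generalize (⟨e.e1, e.e2, e.e3 - 1, e.e4, e.e5⟩ : Mon) = e0 at he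
      intro h0
      subst he
      exact case3 hi e0 h0 hr ih'
    by_cases cE : (5 * e.e5 + 5 - e.e2) + e.e3 + 32 ≤ 3 * e.e1
    · have he : e = (⟨e.e1 - 2, e.e2, e.e3, e.e4, e.e5⟩ : Mon).add vE := by
        obtain ⟨a1, a2, a3, a4, a5⟩ := e
        simp only [Mon.add, vE, Mon.mk.injEq] at *; omega
      have h0 : (5 * (⟨e.e1 - 2, e.e2, e.e3, e.e4, e.e5⟩ : Mon).e5 + 5 -
          (⟨e.e1 - 2, e.e2, e.e3, e.e4, e.e5⟩ : Mon).e2) +
          (⟨e.e1 - 2, e.e2, e.e3, e.e4, e.e5⟩ : Mon).e3 + 26 ≤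
          3 * (⟨e.e1 - 2, e.e2, e.e3, e.e4, e.e5⟩ : Mon).e1 := by dsimp only; omega
      revert h0
      generalize (⟨e.e1 - 2, e.e2, e.e3, e.e4, e.e5⟩ : Mon) = e0 at he
      intro h0
      subst he
      exact caseE hi e0 h0 hr ih'
    by_cases cD : (3 * e.e1 + 3 - e.e3) + e.e2 + 20 ≤ 5 * e.e5
    · have he : e = (⟨e.e1, e.e2, e.e3, e.e4, e.e5 - 1⟩ : Mon).add vD := by
        obtain ⟨a1, a2, a3, a4, a5⟩ := e
        simp only [Mon.add, vD, Mon.mk.injEq] at *; omega
      have h0 : (3 * (⟨e.e1, e.e2, e.e3, e.e4, e.e5 - 1⟩ : Mon).e1 + 3 -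
          (⟨e.e1, e.e2, e.e3, e.e4, e.e5 - 1⟩ : Mon).e3) +
          (⟨e.e1, e.e2, e.e3, e.e4, e.e5 - 1⟩ : Mon).e2 + 15 ≤
          5 * (⟨e.e1, e.e2, e.e3, e.e4, e.e5 - 1⟩ : Mon).e5 := by dsimp only; omega
      revert h0
      generalize (⟨e.e1, e.e2, e.e3, e.e4, e.e5 - 1⟩ : Mon) = e0 at he
      intro h0
      subst he
      exact caseD hi e0 h0 hr ih'
    have cS : 5 * (4 + 6) + 1 ≤ e.e1 ∧ 3 * (4 + 6) + 1 ≤ e.e5 := by
      simp only [InOm] at ho; omega
    have he : e = (⟨e.e1 - 5 * 6, e.e2, e.e3, e.e4, e.e5 - 3 * 6⟩ : Mon).add vS := by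
      obtain ⟨a1, a2, a3, a4, a5⟩ := e
      simp only [Mon.add, vS, Mon.mk.injEq] at *; omega
    have h0 : 5 * 4 + 1 ≤ (⟨e.e1 - 5 * 6, e.e2, e.e3, e.e4, e.e5 - 3 * 6⟩ : Mon).e1 := by
      dsimp only; omega
    have h0' : 3 * 4 + 1 ≤ (⟨e.e1 - 5 * 6, e.e2, e.e3, e.e4, e.e5 - 3 * 6⟩ : Mon).e5 := by
      dsimp only; omega
    revert h0 h0'
    generalize (⟨e.e1 - 5 * 6, e.e2, e.e3, e.e4, e.e5 - 3 * 6⟩ : Mon) = e0 at he
    intro h0 h0'
    subst he
    exact caseS hi e0 h0 h0' hr ih'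
  intro e hr
  exact key _ e rfl hr

end Pool.LM
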