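import Pool.Agent.Helper43.LM.Chk
import Pool.Agent.Helper43.LM.Window2
import Pool.Agent.Helper43.LB.Sound

/-!
# Project LM: soundness of the checker
-/

set_option autoImplicit false

namespace Pool.LM

open Pool.LS Pool.LB

theorem chkP_sound (C D : ℕ → ℕ → ℕ → ℕ → ℕ → ℕ) (ex : Bool) (e : Mon)
    (h : chkP C D ex (C e.e1 e.e2 e.e3 e.e4 e.e5 / 8) (C e.e1 e.e2 e.e3 e.e4 e.e5 % 8)
      (D e.e1 e.e2 e.e3 e.e4 e.e5 / 8) (D e.e1 e.e2 e.e3 e.e4 e.e5 % 8)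
      e.e1 e.e2 e.e3 e.e4 e.e5 = true) :
    AllP (labK C) (moOf C) (labK D) (moOf D) (ex = true) e := by
  have hlU : labK C e = decN (C e.e1 e.e2 e.e3 e.e4 e.e5 / 8) := rfl
  have hmU : moOf C e = C e.e1 e.e2 e.e3 e.e4 e.e5 % 8 := rfl
  have hl : labK D e = decN (D e.e1 e.e2 e.e3 e.e4 e.e5 / 8) := rfl
  have hm : moOf D e = D e.e1 e.e2 e.e3 e.e4 e.e5 % 8 := rfl
  generalize C e.e1 e.e2 e.e3 e.e4 e.e5 / 8 = lU at h hlU
  generalize C e.e1 e.e2 e.e3 e.e4 e.e5 % 8 = mU at h hmU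
  generalize D e.e1 e.e2 e.e3 e.e4 e.e5 / 8 = l at h hl
  generalize D e.e1 e.e2 e.e3 e.e4 e.e5 % 8 = m at h hm
  unfold chkP at h
  simp only [Bool.and_eq_true] at h
  obtain ⟨⟨⟨⟨⟨⟨⟨h0, h1⟩, hT⟩, h2⟩, h3⟩, h4⟩, hZ⟩, h5⟩ := h
  obtain ⟨q1, q2, q3⟩ := preds_imp D _ e h3
  obtain ⟨q4, q5⟩ := bots_imp D l e h4
  rw [bif_true, nbeq_true, nbeq_false] at h2 hT
  refine ⟨⟨?_, ?_, ?_, ?_, ?_, q2, ?_, ?_, ?_, ?_⟩, zones_imp C lU e hlU hZ,
    zones_imp D l e hl h5⟩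
  · rw [hlU]; exact rangeN_imp lU e h0
  · rw [hl]; exact rangeN_imp l e h1
  · intro hmo
    rw [hm] at hmo ⊢
    have h := h2.2 hmo
    simp only [Bool.and_eq_true, Bool.not_eq_true', ← Bool.not_eq_true, nbeq_true] at h
    obtain ⟨⟨n1, n2⟩, n3⟩ := h
    obtain ⟨f, f1, f2, f3⟩ := stepN_imp D l m e n1 n3
    rw [hl]
    exact ⟨f, f1, f2, f3, fun q => n2 (decN_C5.mp q)⟩
  · intro hex hmo
    rw [hm] at hmo
    have h := h2.1 hmo
    rw [hex, Bool.or_eq_true, Bool.or_eq_true, Bool.or_eq_true, topN_iff, nbeq_true,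
      nbeq_true] at h
    rw [hl, decN_B6, decN_C5, ← or_assoc]
    rcases h with ((h | h) | h) | h
    · exact absurd h (by simp)
    · exact Or.inl (Or.inl h)
    · exact Or.inl (Or.inr h)
    · exact Or.inr h
  · intro hn
    rw [hl, beg_iff, Bool.not_eq_true] at hn
    exact q1 hn
  · intro hs
    rw [hl, beg_iff] at hs
    exact q3 hs
  · rintro ⟨t1, t2⟩
    rw [hmU] at t1
    rw [hlU, Ne, decN_C5] at t2
    have h := hT.1 t1
    rw [Bool.or_eq_true, nbeq_true] at h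
    rcases h with h | h
    · exact absurd h t2
    rw [Bool.and_eq_true, redB_iff] at h
    obtain ⟨r1, r2⟩ := h
    simp only [Bool.and_eq_true, ble_true] at r2
    obtain ⟨⟨s1, s2⟩, s4⟩ := r2
    refine ⟨r1, D (e.e1 + 1) e.e2 e.e3 e.e4 e.e5 / 8 - 48, by omega, ?_, ?_⟩
    · rw [hlU]; exact off_imp lU _ e s1 s2 s4
    · show decN (D (e.e1 + 1) e.e2 e.e3 e.e4 e.e5 / 8) = _
      exact decN_B s1 (by omega)
  · rw [hl]; exact q4
  · rw [hl]; exact q5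

/-- the check with the exact ends implies the check without them -/
theorem chkRow_weak (C D : ℕ → ℕ → ℕ → ℕ → ℕ → ℕ) (n e5 : ℕ)
    (h : chkRowP C D true n e5 = true) : chkRowP C D false n e5 = true := by
  have key : ∀ e1 e2 e3 e4, chkQ C D true e1 e2 e3 e4 e5 = true →
      chkQ C D false e1 e2 e3 e4 e5 = true := by
    intro e1 e2 e3 e4 h
    unfold chkQ chkP at *
    simp only [Bool.and_eq_true] at h ⊢
    obtain ⟨⟨⟨⟨⟨⟨⟨h0, h1⟩, hT⟩, h2⟩, h3⟩, h4⟩, hZ⟩, h5⟩ := h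
    refine ⟨⟨⟨⟨⟨⟨⟨h0, h1⟩, hT⟩, ?_⟩, h3⟩, h4⟩, hZ⟩, h5⟩
    rw [bif_true] at h2 ⊢
    exact ⟨fun _ => by simp, h2.2⟩
  unfold chkRowP at *
  rw [allN_true] at h ⊢
  intro e1 he1
  have h := h e1 he1
  rw [bif_true] at h ⊢
  refine ⟨fun hp => ?_, fun _ => rfl⟩
  have h := h.1 hp
  rw [allN_true] at h ⊢
  intro e2 he2
  have h := h e2 he2
  rw [allN_true] at h ⊢
  intro e3 he3
  have h := h e3 he3
  rw [bif_true] at h ⊢
  refine ⟨fun ho => ?_, fun _ => rfl⟩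
  have h := h.1 ho
  rw [Bool.and_eq_true] at h ⊢
  exact ⟨key _ _ _ _ h.1, key _ _ _ _ h.2⟩

end Pool.LM
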