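import Pool.Agent.Helper43.LM.Loc
import Pool.Agent.Helper43.LB.Window

/-!
# Project LM: extension of the local conditions from the window
-/

set_option autoImplicit false
set_option linter.unusedSimpArgs false

namespace Pool.LM

open Pool.LS Pool.LB

theorem locP_shift {labU : Mon → LLab} {moU : Mon → ℕ} {lab : Mon → LLab} {mo : Mon → ℕ}
    {ex : Prop} {v e0 : Mon} (s : Sh labU moU lab mo v e0) (h : LocP labU moU lab mo ex e0) :
    LocP labU moU lab mo ex (e0.add v) := by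
  have hlU : labU (e0.add v) = labU e0 := s.sE.lab s.hr
  have hmU : moU (e0.add v) = moU e0 := s.sE.mo s.hr
  have hl : lab (e0.add v) = lab e0 := s.sE.labC s.hr
  have hm : mo (e0.add v) = mo e0 := s.sE.moC s.hr
  have hP := predC_iff s
  have hS := isSt_iff s
  refine ⟨?_, ?_, ?_, ?_, ?_, ?_, ?_, ?_, ?_, ?_⟩
  · rw [hlU]; exact s.lB.range
  · rw [hl]; exact s.lC.range
  · intro h0
    rw [hm] at h0
    obtain ⟨f0, h1, h2, h3, h4⟩ := h.step h0
    have S := s.sF _ f0 h1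
    refine ⟨f0.add v, ?_, S.red.2 h2, ?_, ?_⟩
    · rw [hm, s.hF, h1]; rfl
    · rw [S.labC h2, hl]; exact h3
    · rw [hl]; exact h4
  · intro hex h0
    rw [hm] at h0
    rw [hl, s.lC.top]
    exact h.stop hex h0
  · intro h0
    rw [hl, s.lC.bot, hS] at h0
    obtain ⟨k, hk⟩ := h.pred h0
    exact ⟨k, (hP k).2 hk⟩
  · intro k k' hk hk'
    exact h.predU k k' ((hP k).1 hk) ((hP k').1 hk')
  · intro h0 k hk
    rw [hl, s.lC.bot, hS] at h0
    exact h.start h0 k ((hP k).1 hk)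
  · intro h0
    have h0' : IsTp labU moU e0 := ⟨by rw [← hmU]; exact h0.1, by rw [← hlU]; exact h0.2⟩
    obtain ⟨h1, j, h2, h3, h4⟩ := h.top h0'
    rw [← add_x1]
    exact ⟨s.s1.red.2 h1, j, h2, by rw [hlU]; exact s.lB.off j h3, by rw [s.s1.labC h1]; exact h4⟩
  · intro h0
    rw [hl, s.lC.bot] at h0
    obtain ⟨h1, h2, h3⟩ := h.bot h0
    rw [← add_x34]
    exact ⟨by simp [Mon.add, h1, s.h4], s.s34.red.2 h2, by rw [s.s34.labC h2]; exact h3⟩
  · intro h0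
    rw [hl] at h0
    obtain ⟨u0, h1, h2⟩ := h.botOf h0
    obtain ⟨S, L1, L2⟩ := s.su u0 h1
    have r0 : Red 2 2 u0 := red_of_x34 (h1 ▸ s.hr)
    refine ⟨u0.add v, by rw [← add_x34, ← h1], ?_⟩
    rw [S.labC r0]
    rcases h2 with h2 | h2
    · exact Or.inl (L2.bot.2 h2)
    · exact Or.inr h2

/-- The local conditions and the zone conditions at `e`. -/
def AllP (labU : Mon → LLab) (moU : Mon → ℕ) (lab : Mon → LLab) (mo : Mon → ℕ) (ex : Prop)
    (e : Mon) : Prop :=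
  LocP labU moU lab mo ex e ∧ ZoneOK labU e ∧ ZoneOK lab e

/-- The local conditions are carried over by the shift `v` in the zone `Z`. -/
theorem loc_zoneP (labU : Mon → LLab) (moU : Mon → ℕ) (lab : Mon → LLab) (mo : Mon → ℕ)
    (ex : Prop) (v e0 : Mon) (Z : Mon → Prop)
    (hr : Red 2 2 e0) (h4 : v.e4 = 0) (hv : 1 ≤ deg v)
    (hst : ∀ f, Red 2 2 f → Z f → labU (f.add v) = labU f ∧ moU (f.add v) = moU f ∧
      lab (f.add v) = lab f ∧ mo (f.add v) = mo f)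
    (hcore : ∀ (l : Mon → LLab) (f : Mon), Red 2 2 f → Z f → ZoneOK l f → rangeN (l f) f →
      Lev (l f) f (f.add v))
    (hred : ∀ f, Near e0 f → (Red 2 2 (f.add v) ↔ Red 2 2 f))
    (hz : ∀ f, Near e0 f → Red 2 2 f → Z f)
    (q1 : v.e1 = 0 ∨ 1 ≤ e0.e1) (q2 : v.e2 = 0 ∨ 1 ≤ e0.e2) (q3 : v.e3 = 0 ∨ 1 ≤ e0.e3)
    (q5 : v.e5 = 0 ∨ 1 ≤ e0.e5)
    (ih : ∀ f, deg f < deg (e0.add v) → Red 2 2 f → AllP labU moU lab mo ex f) :
    LocP labU moU lab mo ex (e0.add v) := by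
  have hdv : deg (e0.add v) = deg e0 + deg v := by simp only [deg, Mon.add]; omega
  have hsim : ∀ f, Near e0 f → Sim2 labU moU lab mo f (f.add v) := by
    intro f hf
    exact ⟨hred f hf, fun hrf => (hst f hrf (hz f hf hrf)).1,
      fun hrf => (hst f hrf (hz f hf hrf)).2.1, fun hrf => (hst f hrf (hz f hf hrf)).2.2.1,
      fun hrf => (hst f hrf (hz f hf hrf)).2.2.2⟩
  obtain ⟨hL, hZ, hZC⟩ := ih e0 (by omega) hr
  have s : Sh labU moU lab mo v e0 := by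
    refine ⟨hr, h4, q1, mvF_add v e0 q1 q2 q3 (Or.inl h4),
      mvB_add v e0 q2 q3 (Or.inl h4) q5, hsim _ (Or.inl rfl),
      (fun k f0 hf => hsim _ (Or.inr (Or.inl ⟨k, hf⟩))),
      (fun k f0 hf => hsim _ (Or.inr (Or.inr (Or.inl ⟨k, hf⟩)))),
      (hsim _ (Or.inr (Or.inr (Or.inr (Or.inl rfl))))),
      (hsim _ (Or.inr (Or.inr (Or.inr (Or.inr (Or.inl rfl)))))),
      ?_, ?_, hcore labU e0 hr (hz e0 (Or.inl rfl) hr) hZ hL.rangeU,
      hcore lab e0 hr (hz e0 (Or.inl rfl) hr) hZC hL.range⟩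
    · intro t0 ht0
      exact hsim _ (Or.inr (Or.inr (Or.inr (Or.inr (Or.inr (Or.inl ht0))))))
    · intro t0 ht0
      have hn : Near e0 t0 := Or.inr (Or.inr (Or.inr (Or.inr (Or.inr (Or.inr ht0)))))
      have r0 : Red 2 2 t0 := red_of_x34 (ht0 ▸ hr)
      have hd0 : deg t0 < deg (e0.add v) := by
        rw [hdv, ht0]; simp only [deg, x34]; omega
      obtain ⟨hL0, hZ0, hZ0C⟩ := ih t0 hd0 r0
      exact ⟨hsim _ hn, hcore labU t0 r0 (hz t0 hn r0) hZ0 hL0.rangeU,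
        hcore lab t0 r0 (hz t0 hn r0) hZ0C hL0.range⟩
  exact locP_shift s hL

end Pool.LM
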